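import Mathlib

set_option autoImplicit false

namespace Pool.Agent.Results.MP_83f734_co.Five

open Matrix

theorem core (θ : ℝ) (hθ : Irrational θ) (h0 : 0 < θ) (h1 : θ < 1 / 2) (a b c d e : ℤ)
    (p1 : -c - 3 * d + (2 * θ - 1) * e ≤ 0) (p2 : a - θ * b + c + d + e ≤ 1)
    (p3 : -2 * a - 3 * b - (3 + 2 * θ) * e ≤ 0) (p4 : 2 * a + 2 * b - c + 2 * d + (1 - θ) * e ≤ 2)
    (p5 : -a + 2 * b + θ * c + θ * d + 2 * e ≤ 2) :
    0 ≤ a ∧ 0 ≤ b ∧ 0 ≤ c ∧ 0 ≤ d ∧ 0 ≤ e ∧ a + b + c + d + e ≤ 1 := by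
  have bd : ∀ y : ℤ, 2 * θ * y ≤ (max 0 y : ℤ) := fun y => by
    obtain h | h := le_total 0 y
    · have : (0 : ℝ) ≤ y := by exact_mod_cast h
      rw [max_eq_right h]; nlinarith
    · have : (y : ℝ) ≤ 0 := by exact_mod_cast h
      rw [max_eq_left h]; push_cast; nlinarith
  have ir : ∀ m n : ℤ, θ * m = n → m = 0 ∧ n = 0 := fun m n h => by
    by_cases k : m = 0
    · exact ⟨k, by simpa [k, eq_comm] using h⟩
    · exact absurd h ((hθ.mul_intCast k).ne_int n)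
  have b1 := bd (b + e)
  have b2 := bd (-(c + d + e))
  have b3 := bd (b - c - d)
  generalize hu : max 0 (b + e) = u at b1
  generalize hv : max 0 (-(c + d + e)) = v at b2
  generalize hw : max 0 (b - c - d) = w at b3
  push_cast at b1 b2 b3
  have q1 : 0 ≤ (c + d + e) + 2 * (a + d) + 3 * (b + e) := by
    rw [← Int.cast_le (R := ℝ)]; push_cast; linarith
  have q2 : 4 * (a + d) + 4 * (b + e) - 3 * (c + d + e) ≤ 4 := by
    rw [← Int.cast_le (R := ℝ)]; push_cast; linarith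
  have q3 : -2 * (a + d) + 4 * (b + e) - (c + d + e) ≤ 4 + v := by
    rw [← Int.cast_le (R := ℝ)]; push_cast; linarith
  have q4 : 2 * (c + d + e) - 3 * (b + e) ≤ 2 + u := by
    rw [← Int.cast_le (R := ℝ)]; push_cast; linarith
  have q5 : 6 * (a + d) + 4 * (b + e) ≤ 6 + u := by
    rw [← Int.cast_le (R := ℝ)]; push_cast; linarith
  have q6 : 4 * (b + e) + 2 * (c + d + e) ≤ 6 + w := by
    rw [← Int.cast_le (R := ℝ)]; push_cast; linarith
  obtain ⟨x, rfl⟩ : ∃ x, a = x - d := ⟨a + d, by ring⟩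
  obtain ⟨y, rfl⟩ : ∃ y, b = y - e := ⟨b + e, by ring⟩
  obtain ⟨z, rfl⟩ : ∃ z, c = z - d - e := ⟨c + d + e, by ring⟩
  have : (x = 0 ∧ y = 0 ∨ x = 1 ∧ y = 0 ∨ x = 0 ∧ y = 1) ∧ (z = 0 ∨ z = 1) := by omega
  push_cast at p1 p2 p3 p4 p5
  obtain ⟨⟨rfl, rfl⟩ | ⟨rfl, rfl⟩ | ⟨rfl, rfl⟩, rfl | rfl⟩ := this <;> push_cast at p1 p2 p3 p4 p5
  · have := ir e d (by linarith); omega
  · have := ir e d (by linarith); omega
  · have := ir e d (by linarith); omega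
  · have := ir e (d - 1) (by push_cast; linarith); omega
  · have := ir e d (by linarith); omega
  · have := ir (e - 1) d (by push_cast; linarith); omega

theorem result (F : IntermediateField ℚ ℝ) (hF : F ≠ ⊥) :
    ∃ (A : Matrix (Fin 5) (Fin 5) ℝ) (b : Fin 5 → ℝ), (∀ i j, A i j ∈ F) ∧ (∀ i, b i ∈ F) ∧
      ∀ x : Fin 5 → ℤ, A *ᵥ (fun i => (x i : ℝ)) ≤ b ↔ x = 0 ∨ ∃ i, x = Pi.single i 1 := by
  obtain ⟨α, hα, n⟩ := SetLike.exists_of_lt (bot_lt_iff_ne_bot.2 hF)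
  obtain ⟨q, q0, q1⟩ := exists_rat_btwn (by linarith : -α < 1 / 2 - α)
  obtain ⟨θ, hθ, ir, h0, h1⟩ : ∃ θ ∈ F, Irrational θ ∧ 0 < θ ∧ θ < 1 / 2 :=
    ⟨α + q, add_mem hα (SubfieldClass.ratCast_mem F q), Irrational.add_ratCast q
      (fun ⟨r, e⟩ => n (IntermediateField.mem_bot.2 ⟨r, e⟩)), by linarith, by linarith⟩
  have two : (2 : ℝ) ∈ F := ofNat_mem F 2
  have three : (3 : ℝ) ∈ F := ofNat_mem F 3
  refine ⟨!![0, 0, -1, -3, 2 * θ - 1; 1, -θ, 1, 1, 1; -2, -3, 0, 0, -(3 + 2 * θ);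
    2, 2, -1, 2, 1 - θ; -1, 2, θ, θ, 2], ![0, 1, 0, 2, 2], fun i j => ?_, fun i => ?_,
    fun x => ⟨fun h => ?_, ?_⟩⟩
  · fin_cases i <;> fin_cases j <;> simp only [of_apply, cons_val', cons_val] <;>
      simp [sub_mem, add_mem, mul_mem, one_mem, zero_mem, *]
  · fin_cases i <;> simp [one_mem, zero_mem, *]
  · have k := fun i => h i
    simp only [Fin.forall_fin_succ, mulVec, dotProduct, Fin.sum_univ_succ] at k
    simp at k
    obtain ⟨p1, p2, p3, p4, p5⟩ := k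
    have := core θ ir h0 h1 (x 0) (x 1) (x 2) (x 3) (x 4) (by linarith) (by linarith) (by linarith)
      (by linarith) (by linarith)
    simp only [funext_iff, Fin.forall_fin_succ, Fin.exists_fin_succ]
    simp
    omega
  · rintro (rfl | ⟨i, rfl⟩) j
    · fin_cases j <;> simp [mulVec, dotProduct]
    · fin_cases i <;> fin_cases j <;> simp [mulVec, dotProduct, Fin.sum_univ_succ] <;> linarith

end Pool.Agent.Results.MP_83f734_co.Five
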